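import Pool.Agent.H912Z.CBEx

/-!
The completely bounded abstract Crouzeix conjecture fails: `A` is the copy
`a ↦ [[a, t (a F - F a)], [0, a]]` of `M_2` inside `M_4`, `θ` is a diagonal similarity with
ratio `25/12`.
-/

namespace Pool.Agent.Results.MP_042718_an.ACounter

open Pool.Agent.H912Z.CB

theorem result : Counter (EuclideanSpace ℂ (Fin 4)) (EuclideanSpace ℂ (Fin 2)) :=
  main

end Pool.Agent.Results.MP_042718_an.ACounter
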